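import Pool.Agent.W983.PL.Stm

/-!
# PC-WC
-/
set_option autoImplicit false
open Set Topology

namespace Pool.Agent.W827.PCWC
open Pool.Agent.W983.PL

variable {F : ℕ → ℝ ≃o ℝ} {g : ℕ → HC}

theorem bb_mono (hbc : S_BC) {j k : ℕ} (h : j ≤ k) : bb j ≤ bb k := by
  rcases h.eq_or_lt with h | h
  · rw [h]
  · have h1 := hbc.2.1 j k h
    have h2 := (hbc.1 j).2.1
    linarith

theorem cc_mono (hbc : S_BC) {j k : ℕ} (h : j ≤ k) : cc j ≤ cc k := by
  rcases h.eq_or_lt with h | h
  · rw [h]
  · have h1 := hbc.2.1 j k h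
    have h2 := (hbc.1 k).2.1
    linarith

theorem pb_le (hbc : S_BC) (k : ℕ) : pb k ≤ bb k := by
  cases k with
  | zero =>
    have := (hbc.1 0).1
    show (0 : ℝ) ≤ bb 0
    linarith
  | succ n =>
    show cc n ≤ bb (n + 1)
    exact le_of_lt (hbc.1 n).2.2.1

theorem le_pb (hbc : S_BC) {j k : ℕ} (h : k < j) : cc k ≤ pb j := by
  cases j with
  | zero => omega
  | succ n =>
    show cc k ≤ cc n
    exact cc_mono hbc (by omega)

/-- `Wd (j, true)` lies in `[3/8, 5/8]` -/
theorem wd_true (hbc : S_BC) {j : ℕ} {z : Circle} (h : z ∈ Wd (j, true)) :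
    3 / 8 < co z ∧ co z < 5 / 8 := by
  have h1 := (hbc.1 j).2.2.2.2.1
  have h2 := (hbc.1 j).1
  have h3 := (hbc.1 j).2.1
  simp only [Wd, if_true, DX, DA, mem_union, mem_setOf_eq] at h
  rcases h with h | h <;> constructor <;> linarith [h.1, h.2]

theorem wd_false (hbc : S_BC) {j : ℕ} {z : Circle} (h : z ∈ Wd (j, false)) :
    (pb j ≤ co z ∧ co z ≤ bb (j + 1)) ∨ (1 - bb (j + 1) ≤ co z ∧ co z ≤ 1 - pb j) := by
  simpa [Wd] using h

theorem sub_RT_true (hbc : S_BC) {j k : ℕ} {z : Circle} (h : z ∈ Wd (j, true)) : z ∈ RT k := by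
  have h1 := wd_true hbc h
  have h2 := (hbc.1 k).2.2.2.2.1
  exact ⟨by linarith [h1.1], by linarith [h1.2]⟩

theorem sub_LL (hbc : S_BC) {j k : ℕ} (hjk : j < k) {z : Circle} (h : z ∈ Wd (j, false)) :
    z ∈ LL k := by
  have h2 := bb_mono hbc (show j + 1 ≤ k by omega)
  rcases wd_false hbc h with h1 | h1
  · left; linarith [h1.2]
  · right; linarith [h1.1]

theorem sub_RT (hbc : S_BC) {j k : ℕ} (hjk : k < j) {z : Circle} (h : z ∈ Wd (j, false)) :
    z ∈ RT k := by
  have h2 := le_pb hbc hjk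
  have h3 := (hbc.1 (j + 1)).2.2.2.1
  have h4 := (hbc.1 k).2.2.2.2.1
  rcases wd_false hbc h with h1 | h1
  · exact ⟨by linarith [h1.1], by linarith [h1.2]⟩
  · exact ⟨by linarith [h1.1], by linarith [h1.2]⟩

theorem sub_OO_false (hbc : S_BC) {j k : ℕ} {z : Circle} (h : z ∈ Wd (j, false)) :
    z ∈ OO k := by
  have h3 := (hbc.1 (j + 1)).2.2.2.1
  have h4 := (hbc.1 k).2.2.2.2.1
  rcases wd_false hbc h with h1 | h1
  · left; linarith [h1.2]
  · right; linarith [h1.1]

theorem sub_II (hbc : S_BC) {j k : ℕ} (hjk : j < k) {z : Circle} (h : z ∈ Wd (j, true)) :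
    z ∈ II k := by
  have h1 := hbc.2.1 j k hjk
  have h2 := (hbc.1 j).1
  have h3 := (hbc.1 j).2.1
  have h4 := (hbc.1 k).1
  simp only [Wd, if_true, DX, DA, mem_union, mem_setOf_eq] at h
  rcases h with h | h <;> exact ⟨by linarith [h.1, h.2], by linarith [h.1, h.2]⟩

theorem sub_OO (hbc : S_BC) {j k : ℕ} (hjk : k < j) {z : Circle} (h : z ∈ Wd (j, true)) :
    z ∈ OO k := by
  have h1 := hbc.2.1 k j hjk
  simp only [Wd, if_true, DX, DA, mem_union, mem_setOf_eq] at h
  rcases h with h | h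
  · left; linarith [h.2]
  · right; linarith [h.1]

theorem nonempty_Dm (hbc : S_BC) (s : ℕ × Bool) : (Dm s).Nonempty := by
  obtain ⟨k, b⟩ := s
  have h1 := (hbc.1 k).1
  have h2 := (hbc.1 k).2.1
  have h3 := (hbc.1 k).2.2.2.2.1
  cases b with
  | true =>
    refine ⟨E (1 / 2 - bb k), ?_⟩
    simp only [Dm, if_true, DX, DA, mem_union, mem_setOf_eq]
    rw [co_E_of (by linarith) (by linarith)]
    left
    constructor <;> linarith
  | false =>
    refine ⟨E (bb k), ?_⟩
    simp only [Dm, DY, DR, mem_union, mem_setOf_eq, Bool.false_eq_true, if_false]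
    rw [co_E_of (by linarith) (by linarith)]
    left
    constructor <;> linarith

theorem closed_aux {a b c d : ℝ} (ha : 0 ≤ a) (hb : b < 1) (hc : 0 ≤ c) (hd : d < 1) :
    IsClosed (co '' {z : Circle | (a ≤ co z ∧ co z ≤ b) ∨ (c ≤ co z ∧ co z ≤ d)}) := by
  have : co '' {z : Circle | (a ≤ co z ∧ co z ≤ b) ∨ (c ≤ co z ∧ co z ≤ d)}
      = Icc a b ∪ Icc c d := by
    ext t
    simp only [mem_image, mem_setOf_eq, mem_union, mem_Icc]
    constructor
    · rintro ⟨z, hz, rfl⟩
      exact hz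
    · intro h
      refine ⟨E t, ?_, ?_⟩
      · rw [co_E_of (by rcases h with h | h <;> linarith [h.1, h.2])
          (by rcases h with h | h <;> linarith [h.1, h.2])]
        exact h
      · exact co_E_of (by rcases h with h | h <;> linarith [h.1, h.2])
          (by rcases h with h | h <;> linarith [h.1, h.2])
  rw [this]
  exact isClosed_Icc.union isClosed_Icc

theorem closed_Dm (hbc : S_BC) (s : ℕ × Bool) : IsClosed (co '' Dm s) := by
  obtain ⟨k, b⟩ := s
  have h1 := (hbc.1 k).1
  have h2 := (hbc.1 k).2.1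
  have h3 := (hbc.1 k).2.2.2.2.1
  cases b with
  | true =>
    have := closed_aux (a := 1 / 2 - cc k) (b := 1 / 2 - bb k) (c := 1 / 2 + bb k)
      (d := 1 / 2 + cc k) (by linarith) (by linarith) (by linarith) (by linarith)
    exact this
  | false =>
    have := closed_aux (a := bb k) (b := cc k) (c := 1 - cc k)
      (d := 1 - bb k) (by linarith) (by linarith) (by linarith) (by linarith)
    exact this

theorem mem_true {k : ℕ} {z : Circle} : z ∈ Dm (k, true) ↔
    (1 / 2 - cc k ≤ co z ∧ co z ≤ 1 / 2 - bb k) ∨ (1 / 2 + bb k ≤ co z ∧ co z ≤ 1 / 2 + cc k) :=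
  Iff.rfl

theorem mem_false {k : ℕ} {z : Circle} : z ∈ Dm (k, false) ↔
    (bb k ≤ co z ∧ co z ≤ cc k) ∨ (1 - cc k ≤ co z ∧ co z ≤ 1 - bb k) := Iff.rfl

theorem disj_aux (hbc : S_BC) {j k : ℕ} (h : j ≠ k) (b : Bool) {z : Circle}
    (h1 : z ∈ Dm (j, b)) (h2 : z ∈ Dm (k, b)) : False := by
  have e1 := (hbc.1 j).1
  have e2 := (hbc.1 j).2.1
  have e3 := (hbc.1 j).2.2.2.2.1
  have f1 := (hbc.1 k).1
  have f2 := (hbc.1 k).2.1
  have f3 := (hbc.1 k).2.2.2.2.1
  rcases Nat.lt_or_gt_of_ne h with hl | hl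
  · have := hbc.2.1 _ _ hl
    cases b with
    | true =>
      rw [mem_true] at h1 h2
      rcases h1 with h1 | h1 <;> rcases h2 with h2 | h2 <;> linarith [h1.1, h1.2, h2.1, h2.2]
    | false =>
      rw [mem_false] at h1 h2
      rcases h1 with h1 | h1 <;> rcases h2 with h2 | h2 <;> linarith [h1.1, h1.2, h2.1, h2.2]
  · have := hbc.2.1 _ _ hl
    cases b with
    | true =>
      rw [mem_true] at h1 h2
      rcases h1 with h1 | h1 <;> rcases h2 with h2 | h2 <;> linarith [h1.1, h1.2, h2.1, h2.2]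
    | false =>
      rw [mem_false] at h1 h2
      rcases h1 with h1 | h1 <;> rcases h2 with h2 | h2 <;> linarith [h1.1, h1.2, h2.1, h2.2]

theorem disj_tf (hbc : S_BC) {j k : ℕ} {z : Circle}
    (h1 : z ∈ Dm (j, true)) (h2 : z ∈ Dm (k, false)) : False := by
  have e1 := (hbc.1 j).1
  have e2 := (hbc.1 j).2.1
  have e3 := (hbc.1 j).2.2.2.2.1
  have f1 := (hbc.1 k).1
  have f2 := (hbc.1 k).2.1
  have f3 := (hbc.1 k).2.2.2.2.1
  rw [mem_true] at h1
  rw [mem_false] at h2
  rcases h1 with h1 | h1 <;> rcases h2 with h2 | h2 <;> linarith [h1.1, h1.2, h2.1, h2.2]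

theorem wc (hbc : S_BC) (hmap : S_MAP) (hcon : S_CON) : S_WC := by
  intro F g hg
  refine ⟨?_, ?_, ?_, ?_, closed_Dm hbc, nonempty_Dm hbc, ?_⟩
  · rintro ⟨k, b⟩ ⟨j, c⟩ hne z hz w hw
    have H := hcon F g hg k z w
    cases b with
    | true =>
      show |co (g k z) - co (g k w)| ≤ 1 / 2 * |co z - co w|
      cases c with
      | true => exact H.2.1 (sub_RT_true hbc hz) (sub_RT_true hbc hw)
      | false =>
        have hjk : j ≠ k := by
          rintro rfl
          exact hne rfl
        rcases Nat.lt_or_gt_of_ne hjk with hl | hl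
        · exact H.1 (sub_LL hbc hl hz) (sub_LL hbc hl hw)
        · exact H.2.1 (sub_RT hbc hl hz) (sub_RT hbc hl hw)
    | false =>
      show |co ((g k)⁻¹ z) - co ((g k)⁻¹ w)| ≤ 1 / 2 * |co z - co w|
      cases c with
      | true =>
        have hjk : j ≠ k := by
          rintro rfl
          exact hne rfl
        rcases Nat.lt_or_gt_of_ne hjk with hl | hl
        · exact H.2.2.1 (sub_II hbc hl hz) (sub_II hbc hl hw)
        · exact H.2.2.2 (sub_OO hbc hl hz) (sub_OO hbc hl hw)
      | false => exact H.2.2.2 (sub_OO_false hbc hz) (sub_OO_false hbc hw)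
  · rintro ⟨k, b⟩ z hz
    have H := hmap F g hg k z
    cases b with
    | true =>
      have hz' : z ∉ Dm (k, false) := hz
      rw [mem_false] at hz'
      push Not at hz'
      show g k z ∈ DX k ∪ DA k
      by_cases h1 : co z ≤ bb k ∨ 1 - bb k ≤ co z
      · exact Or.inl (H.1 h1)
      · push Not at h1
        refine Or.inr (H.2.1 ⟨?_, ?_⟩)
        · exact le_of_lt (hz'.1 h1.1.le)
        · by_contra hc
          push Not at hc
          have := hz'.2 hc.le
          linarith [h1.2]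
    | false =>
      have hz' : z ∉ Dm (k, true) := hz
      rw [mem_true] at hz'
      push Not at hz'
      show (g k)⁻¹ z ∈ DY k ∪ DR k
      by_cases h1 : 1 / 2 - bb k ≤ co z ∧ co z ≤ 1 / 2 + bb k
      · exact Or.inl (H.2.2.1 h1)
      · refine Or.inr (H.2.2.2 ?_)
        by_contra hc
        have hc' : ¬ (co z ≤ 1 / 2 - cc k ∨ 1 / 2 + cc k ≤ co z) := hc
        push Not at hc'
        apply h1
        constructor
        · exact le_of_lt (hz'.1 hc'.1.le)
        · by_contra hd
          push Not at hd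
          have := hz'.2 hd.le
          linarith [hc'.2]
  · rintro ⟨k, b⟩ ⟨j, c⟩ hne
    rw [Set.disjoint_left]
    intro z hz hw
    cases b with
    | true =>
      cases c with
      | true =>
        refine disj_aux hbc (j := k) (k := j) ?_ true hz hw
        rintro rfl; exact hne rfl
      | false => exact disj_tf hbc hz hw
    | false =>
      cases c with
      | true => exact disj_tf hbc hw hz
      | false =>
        refine disj_aux hbc (j := k) (k := j) ?_ false hz hw
        rintro rfl; exact hne rfl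
  · rintro ⟨k, b⟩ z hz
    cases b with
    | true => exact hz
    | false =>
      have h1 := pb_le hbc k
      have h2 := (hbc.1 k).2.2.1
      rw [mem_false] at hz
      show (pb k ≤ co z ∧ co z ≤ bb (k + 1)) ∨ (1 - bb (k + 1) ≤ co z ∧ co z ≤ 1 - pb k)
      rcases hz with hz | hz
      · left; constructor <;> linarith [hz.1, hz.2]
      · right; constructor <;> linarith [hz.1, hz.2]
  · rintro ⟨k, b⟩ z hz
    have e1 := (hbc.1 k).1
    have e2 := (hbc.1 k).2.1
    have e3 := (hbc.1 k).2.2.2.2.1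
    have e4 := (hbc.1 k).2.2.2.1
    cases b with
    | true =>
      rw [mem_true] at hz
      rcases hz with hz | hz
      · refine ⟨by linarith [hz.1], by linarith [hz.2], ?_, ?_, ?_, ?_⟩ <;> intro h <;>
          linarith [hz.1, hz.2]
      · refine ⟨by linarith [hz.1], by linarith [hz.2], ?_, ?_, ?_, ?_⟩ <;> intro h <;>
          linarith [hz.1, hz.2]
    | false =>
      rw [mem_false] at hz
      rcases hz with hz | hz
      · refine ⟨by linarith [hz.1], by linarith [hz.2], ?_, ?_, ?_, ?_⟩ <;> intro h <;>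
          linarith [hz.1, hz.2]
      · refine ⟨by linarith [hz.1], by linarith [hz.2], ?_, ?_, ?_, ?_⟩ <;> intro h <;>
          linarith [hz.1, hz.2]

end Pool.Agent.W827.PCWC
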