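import Pool.Agent.W217.BE.Stm2

set_option autoImplicit false

namespace Pool.Agent.W827.BEZCUT

open Pool.Agent.W217.BE Polynomial

/-- a finite module which vanishes at `χ` is killed by one element outside the kernel. -/
theorem killall {C κ : Type} [CommRing C] [Field κ] (χ : C →+* κ) (Q : Type) [AddCommGroup Q]
    [Module C Q] [Module.Finite C Q] (h : ¬ NZ χ Q) : ∃ s : C, χ s ≠ 0 ∧ ∀ x : Q, s • x = 0 := by
  classical
  have h' : ∀ x : Q, ∃ s : C, χ s ≠ 0 ∧ s • x = 0 := by
    intro x
    by_contra hcon
    apply h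
    refine ⟨x, fun s hs hx => hcon ⟨s, hs, hx⟩⟩
  choose r hr0 hr using h'
  obtain ⟨S, hS⟩ := (Module.Finite.fg_top : (⊤ : Submodule C Q).FG)
  refine ⟨∏ g ∈ S, r g, ?_, ?_⟩
  · rw [map_prod]
    exact Finset.prod_ne_zero_iff.mpr (fun g _ => hr0 g)
  · intro x
    have hx : x ∈ Submodule.span C (S : Set Q) := by rw [hS]; trivial
    have hle : Submodule.span C (S : Set Q) ≤
        LinearMap.ker (LinearMap.lsmul C Q (∏ g ∈ S, r g)) := by
      rw [Submodule.span_le]
      intro g hg
      rw [SetLike.mem_coe, LinearMap.mem_ker, LinearMap.lsmul_apply,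
        ← Finset.prod_erase_mul S r (Finset.mem_coe.mp hg), mul_smul, hr, smul_zero]
    have := hle hx
    rwa [LinearMap.mem_ker, LinearMap.lsmul_apply] at this

section

variable {C : Type} [CommRing C] {M : Type} [AddCommGroup M] [Module C[X] M] [Module C M]
  [IsScalarTower C C[X] M] (N : ℤ → Submodule C M)

/-- the projections to the graded pieces -/
theorem exists_pr (hN : DirectSum.IsInternal N) :
    ∃ pr : (t : ℤ) → M →ₗ[C] N t,
      (∀ t x, x ∈ N t → ((pr t x : N t) : M) = x) ∧
      (∀ t t' x, x ∈ N t → t ≠ t' → pr t' x = 0) ∧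
      (∀ x, ∃ S : Finset ℤ, (∀ t, t ∉ S → pr t x = 0) ∧ x = ∑ t ∈ S, ((pr t x : N t) : M)) := by
  classical
  letI := hN.chooseDecomposition
  refine ⟨fun t => (DirectSum.component C ℤ (fun t => N t) t).comp
    (DirectSum.decomposeLinearEquiv N).toLinearMap, ?_, ?_, ?_⟩
  · intro t x hx
    exact DirectSum.decompose_of_mem_same N hx
  · intro t t' x hx htt
    apply Subtype.ext
    exact DirectSum.decompose_of_mem_ne N hx htt
  · intro x
    refine ⟨(DirectSum.decompose N x).support, ?_, ?_⟩
    · intro t ht
      exact DFinsupp.notMem_support_iff.mp ht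
    · exact (DirectSum.sum_support_decompose N x).symm

variable {N}

theorem pr_X (pr : (t : ℤ) → M →ₗ[C] N t)
    (h1 : ∀ t x, x ∈ N t → ((pr t x : N t) : M) = x)
    (h2 : ∀ t t' x, x ∈ N t → t ≠ t' → pr t' x = 0)
    (h3 : ∀ x, ∃ S : Finset ℤ, (∀ t, t ∉ S → pr t x = 0) ∧ x = ∑ t ∈ S, ((pr t x : N t) : M))
    (hX : ∀ t x, x ∈ N t → (X : C[X]) • x ∈ N (t + 1)) (t : ℤ) (x : M) :
    ((pr (t + 1) ((X : C[X]) • x) : N (t + 1)) : M) = (X : C[X]) • ((pr t x : N t) : M) := by
  classical
  obtain ⟨S, hS, hx⟩ := h3 x
  have h4 : ∀ u, ((pr (t + 1) ((X : C[X]) • ((pr u x : N u) : M)) : N (t + 1)) : M) =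
      if u = t then (X : C[X]) • ((pr t x : N t) : M) else 0 := by
    intro u
    by_cases hu : u = t
    · subst hu
      rw [if_pos rfl]
      exact h1 _ _ (hX _ _ (pr u x).2)
    · rw [if_neg hu, h2 (u + 1) (t + 1) _ (hX _ _ (pr u x).2) (by omega)]
      rfl
  conv_lhs => rw [hx]
  rw [Finset.smul_sum, map_sum, AddSubmonoidClass.coe_finset_sum,
    Finset.sum_congr rfl (fun u _ => h4 u), Finset.sum_ite_eq' S t]
  split_ifs with hts
  · rfl
  · rw [hS t hts]
    simp

theorem pr_Xpow (pr : (t : ℤ) → M →ₗ[C] N t)
    (hp : ∀ t x, ((pr (t + 1) ((X : C[X]) • x) : N (t + 1)) : M) =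
      (X : C[X]) • ((pr t x : N t) : M)) (k : ℕ) : ∀ (t : ℤ) (x : M),
    ((pr (t + k) ((X ^ k : C[X]) • x) : N (t + k)) : M) =
      (X ^ k : C[X]) • ((pr t x : N t) : M) := by
  induction k with
  | zero =>
    intro t x
    have e : t + ((0 : ℕ) : ℤ) = t := by simp
    rw [e, pow_zero, one_smul, one_smul]
  | succ k ih =>
    intro t x
    have e : t + ((k + 1 : ℕ) : ℤ) = (t + k) + 1 := by push_cast; ring
    rw [e, pow_succ', mul_smul, mul_smul, hp, ih]

end

theorem main : ZCUT := by
  intro C κ _ _ _ χ M _ _ _ _ _ N hN hX hNZ hnil top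
  classical
  obtain ⟨pr, h1, h2, h3⟩ := exists_pr N hN
  have hp := pr_X pr h1 h2 h3 hX
  have hpk := fun k => pr_Xpow pr hp k
  haveI hnoeth : IsNoetherian C[X] M := isNoetherian_of_isNoetherianRing_of_finite C[X] M
  -- the submodules of elements of degree at least t
  let G : ℤ → Submodule C[X] M := fun t =>
    { carrier := {x | ∀ u, u < t → pr u x = 0}
      add_mem' := by
        intro a b ha hb u hu
        rw [map_add, ha u hu, hb u hu, add_zero]
      zero_mem' := by
        intro u _
        exact map_zero _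
      smul_mem' := by
        intro p x hx
        induction p using Polynomial.induction_on' with
        | add p q hp' hq' =>
          intro u hu
          rw [add_smul, map_add, hp' u hu, hq' u hu, add_zero]
        | monomial k c =>
          intro u hu
          have e : (Polynomial.monomial k c : C[X]) • x = c • ((X ^ k : C[X]) • x) := by
            rw [← smul_assoc, Polynomial.smul_X_eq_monomial]
          rw [e, map_smul]
          have e2 : u = (u - k) + (k : ℤ) := by ring
          have e3 : pr u ((X ^ k : C[X]) • x) = 0 := by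
            apply Subtype.ext
            have := hpk k (u - k) x
            rw [← e2] at this
            rw [this, hx (u - k) (by omega)]
            simp
          rw [e3, smul_zero] }
  have hG : ∀ t x, x ∈ G t ↔ ∀ u, u < t → pr u x = 0 := fun t x => Iff.rfl
  -- finiteness of the pieces
  have hfin : ∀ t, Module.Finite C (N t) := by
    intro t
    obtain ⟨S, hS⟩ := (IsNoetherian.noetherian (G t) : (G t).FG)
    have hphi : ∀ (p : C[X]) (x : M), x ∈ G t → pr t (p • x) = p.coeff 0 • pr t x := by
      intro p x hx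
      induction p using Polynomial.induction_on' with
      | add p q hp' hq' => rw [add_smul, map_add, hp', hq', Polynomial.coeff_add, add_smul]
      | monomial k c =>
        have e : (Polynomial.monomial k c : C[X]) • x = c • ((X ^ k : C[X]) • x) := by
          rw [← smul_assoc, Polynomial.smul_X_eq_monomial]
        rw [e, map_smul, Polynomial.coeff_monomial]
        by_cases hk : k = 0
        · subst hk; simp
        · rw [if_neg hk, zero_smul]
          have e2 : t = (t - k) + (k : ℤ) := by ring
          have e3 : pr t ((X ^ k : C[X]) • x) = 0 := by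
            apply Subtype.ext
            have := hpk k (t - k) x
            rw [← e2] at this
            rw [this, hx (t - k) (by omega)]
            simp
          rw [e3, smul_zero]
    refine ⟨⟨S.image (pr t), ?_⟩⟩
    rw [eq_top_iff]
    rintro y -
    have hy : (y : M) ∈ G t := by
      intro u hu
      exact h2 t u y y.2 (by omega)
    have hyS : (y : M) ∈ Submodule.span C[X] (S : Set M) := by rw [hS]; exact hy
    have key : ∀ z ∈ Submodule.span C[X] (S : Set M),
        z ∈ G t ∧ pr t z ∈ Submodule.span C ((S.image (pr t) : Finset (N t)) : Set (N t)) := by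
      intro z hz
      have hzG : z ∈ G t := by rw [← hS]; exact hz
      refine ⟨hzG, ?_⟩
      induction hz using Submodule.span_induction with
      | mem z hz =>
        exact Submodule.subset_span (by
          rw [Finset.coe_image]
          exact ⟨z, hz, rfl⟩)
      | zero => rw [map_zero]; exact Submodule.zero_mem _
      | add a b ha hb iha ihb =>
        rw [map_add]
        have haG : a ∈ G t := by rw [← hS]; exact ha
        have hbG : b ∈ G t := by rw [← hS]; exact hb
        exact Submodule.add_mem _ (iha haG) (ihb hbG)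
      | smul p a ha iha =>
        have haG : a ∈ G t := by rw [← hS]; exact ha
        rw [hphi p a haG]
        exact Submodule.smul_mem _ _ (iha haG)
    have h5 := (key _ hyS).2
    have h6 : pr t (y : M) = y := Subtype.ext (h1 t y y.2)
    rwa [h6] at h5
  -- bounds for the generators
  obtain ⟨S, hS⟩ := (Module.Finite.fg_top : (⊤ : Submodule C[X] M).FG)
  have hbd : ∃ B : ℕ, ∀ g ∈ S, ∀ t : ℤ, (B : ℤ) < |t| → pr t g = 0 := by
    choose T hT hT' using h3
    refine ⟨S.sup (fun g => (T g).sup Int.natAbs), ?_⟩
    intro g hg t ht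
    apply hT g t
    intro htT
    have h5 : t.natAbs ≤ (T g).sup Int.natAbs := Finset.le_sup (f := Int.natAbs) htT
    have h6 : (T g).sup Int.natAbs ≤ S.sup (fun g => (T g).sup Int.natAbs) :=
      Finset.le_sup (f := fun g => (T g).sup Int.natAbs) hg
    have h7 : |t| = (t.natAbs : ℤ) := Int.abs_eq_natAbs t
    rw [h7] at ht
    omega
  obtain ⟨B, hB⟩ := hbd
  have hlow : ∀ t : ℤ, t < -(B : ℤ) → ∀ x : M, pr t x = 0 := by
    intro t ht x
    have hle : Submodule.span C[X] (S : Set M) ≤ G (-(B : ℤ)) := by
      rw [Submodule.span_le]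
      intro g hg u hu
      apply hB g hg u
      rw [abs_of_neg (by omega)]
      omega
    have hx : x ∈ G (-(B : ℤ)) := hle (by rw [hS]; trivial)
    exact hx t ht
  -- the nilpotency
  obtain ⟨n, s, hs, hsn⟩ := hnil
  have hKn : ∀ x : M, s.coeff 0 • ((X ^ n : C[X]) • x) = 0 := by
    have hhom : ∀ (t : ℤ) (x : M), x ∈ N t → s.coeff 0 • ((X ^ n : C[X]) • x) = 0 := by
      intro t x hx
      have h5 := hsn x
      have h6 : ∀ p : C[X], ((pr (t + n) ((p * X ^ n) • x) : N (t + n)) : M) =
          p.coeff 0 • ((X ^ n : C[X]) • x) := by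
        intro p
        induction p using Polynomial.induction_on' with
        | add p q hp' hq' =>
          rw [add_mul, add_smul, map_add, Submodule.coe_add, hp', hq', Polynomial.coeff_add,
            add_smul]
        | monomial k c =>
          have e : ((Polynomial.monomial k c : C[X]) * X ^ n) • x =
              c • ((X ^ (k + n) : C[X]) • x) := by
            rw [← smul_assoc, Polynomial.smul_X_eq_monomial, Polynomial.monomial_mul_X_pow]
          rw [e, map_smul, Submodule.coe_smul, Polynomial.coeff_monomial]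
          by_cases hk : k = 0
          · subst hk
            rw [if_pos rfl, zero_add, hpk n t x, h1 t x hx]
          · rw [if_neg hk, zero_smul]
            have e2 : t + (n : ℤ) = (t - k) + ((k + n : ℕ) : ℤ) := by push_cast; ring
            rw [e2, hpk (k + n) (t - k) x, h2 t (t - k) x hx (by omega)]
            simp
      rw [← h6 s, h5]
      simp
    intro x
    obtain ⟨T, _, hx⟩ := h3 x
    rw [hx, Finset.smul_sum, Finset.smul_sum]
    exact Finset.sum_eq_zero (fun t _ => hhom t _ (pr t x).2)
  have hhigh : ∀ t : ℤ, (B : ℤ) + n < t → ∀ x : M, s.coeff 0 • pr t x = 0 := by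
    intro t ht x
    have hx : x ∈ Submodule.span C[X] (S : Set M) := by rw [hS]; trivial
    obtain ⟨f, hf⟩ := (Submodule.mem_span_finset (R := C[X])).mp hx
    rw [← hf.2, map_sum, Finset.smul_sum]
    apply Finset.sum_eq_zero
    intro g hg
    generalize f g = p
    induction p using Polynomial.induction_on' with
    | add p q hp' hq' => rw [add_smul, map_add, smul_add, hp', hq', add_zero]
    | monomial k c =>
      have e : (Polynomial.monomial k c : C[X]) • g = c • ((X ^ k : C[X]) • g) := by
        rw [← smul_assoc, Polynomial.smul_X_eq_monomial]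
      rw [e, map_smul, smul_comm]
      have e2 : t = (t - k) + (k : ℤ) := by ring
      have e3 : s.coeff 0 • pr t ((X ^ k : C[X]) • g) = 0 := by
        apply Subtype.ext
        rw [Submodule.coe_smul]
        have h5 := hpk k (t - k) g
        rw [← e2] at h5
        rw [h5]
        by_cases hk : n ≤ k
        · obtain ⟨j, rfl⟩ := Nat.exists_eq_add_of_le hk
          rw [pow_add, mul_smul, hKn]
          rfl
        · rw [hB g hg (t - k) (by
            rw [abs_of_pos (by omega)]
            omega)]
          simp
      rw [e3, smul_zero]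
  -- the set of degrees with nonzero piece
  have hex : ∃ t, NZ χ (N t) := by
    by_contra hcon
    push Not at hcon
    obtain ⟨x, hx⟩ := hNZ
    have hk := fun t => @killall C κ _ _ χ (N t) _ _ (hfin t) (hcon t)
    choose r hr0 hr using hk
    obtain ⟨T, _, hxT⟩ := h3 x
    have h5 := hx (Polynomial.C (∏ t ∈ T, r t)) (by
      simp only [RingHom.comp_apply, Polynomial.coe_evalRingHom, Polynomial.eval_C, map_prod]
      exact Finset.prod_ne_zero_iff.mpr (fun t _ => hr0 t))
    apply h5
    have h6 : (Polynomial.C (∏ t ∈ T, r t) : C[X]) • x = (∏ t ∈ T, r t) • x := by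
      rw [← Polynomial.algebraMap_eq, algebraMap_smul]
    rw [h6, hxT, Finset.smul_sum]
    apply Finset.sum_eq_zero
    intro t ht
    rw [← Finset.prod_erase_mul T r ht, mul_smul]
    have h7 := congrArg (fun z : N t => (z : M)) (hr t (pr t x))
    simp only [Submodule.coe_smul, ZeroMemClass.coe_zero] at h7
    rw [h7, smul_zero]
  have hlo : ∀ t, NZ χ (N t) → -(B : ℤ) ≤ t := by
    intro t ht
    by_contra hcon
    push Not at hcon
    obtain ⟨x, hx⟩ := ht
    apply hx 1 (by rw [map_one]; exact one_ne_zero)
    rw [one_smul]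
    have h5 := hlow t hcon (x : M)
    have h6 : pr t (x : M) = x := Subtype.ext (h1 t x x.2)
    rw [← h6, h5]
  have hhi : ∀ t, NZ χ (N t) → t ≤ (B : ℤ) + n := by
    intro t ht
    by_contra hcon
    push Not at hcon
    obtain ⟨x, hx⟩ := ht
    apply hx (s.coeff 0) hs
    have h5 := hhigh t hcon (x : M)
    have h6 : pr t (x : M) = x := Subtype.ext (h1 t x x.2)
    rwa [h6] at h5
  cases top with
  | false =>
    obtain ⟨t0, ht0, hmin⟩ := Int.exists_least_of_bdd ⟨_, hlo⟩ hex
    have hnb : ¬ NZ χ (N (t0 - 1)) := fun h => by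
      have := hmin _ h
      omega
    haveI := hfin (t0 - 1)
    obtain ⟨r, hr0, hr⟩ := killall χ (N (t0 - 1)) hnb
    refine ⟨t0, r • pr t0, (N t0).subtype, r, hr0, ht0, hfin t0, ?_, ?_, ?_⟩
    · intro x
      have h6 : pr t0 (x : M) = x := Subtype.ext (h1 t0 x x.2)
      simp only [LinearMap.smul_apply, Submodule.subtype_apply, h6]
    · intro _ x
      apply Subtype.ext
      have h5 := hp (t0 - 1) x
      rw [sub_add_cancel] at h5
      rw [LinearMap.smul_apply, Submodule.coe_smul, h5, smul_comm, ← Submodule.coe_smul, hr]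
      simp
    · intro h
      cases h
  | true =>
    obtain ⟨t0, ht0, hmax⟩ := Int.exists_greatest_of_bdd ⟨_, hhi⟩ hex
    have hnb : ¬ NZ χ (N (t0 + 1)) := fun h => by
      have := hmax _ h
      omega
    haveI := hfin (t0 + 1)
    obtain ⟨r, hr0, hr⟩ := killall χ (N (t0 + 1)) hnb
    refine ⟨t0, pr t0, r • (N t0).subtype, r, hr0, ht0, hfin t0, ?_, ?_, ?_⟩
    · intro x
      have h6 : pr t0 (x : M) = x := Subtype.ext (h1 t0 x x.2)
      simp only [LinearMap.smul_apply, Submodule.subtype_apply, map_smul, h6]
    · intro h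
      cases h
    · intro _ x
      have h5 := congrArg (fun z : N (t0 + 1) => (z : M)) (hr ⟨_, hX t0 x x.2⟩)
      simp only [Submodule.coe_smul, ZeroMemClass.coe_zero] at h5
      rw [LinearMap.smul_apply, Submodule.subtype_apply, smul_comm]
      exact h5

end Pool.Agent.W827.BEZCUT
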