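import Pool.Agent.W894.MB.Defs

/-!
Project MB (helper894): the splitting statement.
-/

namespace Pool.Agent.W827.MBSplit

open Set Pool.Agent.W894.MB

universe u v

open Classical in
/-- add the value `v` at the point `z` to a condition -/
noncomputable def addv {K : Type u} [LinearOrder K] (c : Cond K) (z v : K) (hv : v < z) :
    Cond K where
  f := Function.update c.f z (some v)
  ctble := by
    refine (c.ctble.union (Set.countable_singleton z)).mono ?_
    intro y hy
    by_cases h : y = z
    · right; exact h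
    · left
      simpa [Function.update_of_ne h] using hy
  regr := by
    intro x y hxy
    by_cases h : x = z
    · subst h
      rw [Function.update_self] at hxy
      cases hxy
      exact hv
    · rw [Function.update_of_ne h] at hxy
      exact c.regr x y hxy

theorem addv_self {K : Type u} [LinearOrder K] (c : Cond K) (z v : K) (hv : v < z) :
    (addv c z v hv).f z = some v := by
  simp [addv]

theorem addv_ne {K : Type u} [LinearOrder K] (c : Cond K) (z v : K) (hv : v < z) {y : K}
    (hy : y ≠ z) : (addv c z v hv).f y = c.f y := by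
  simp [addv, hy]

theorem free {K : Type u} [LinearOrder K] [WellFoundedLT K] (h2 : S_SIGMA.{u}) (U : Ultrafilter K)
    (hU : NormalMeasure U) (hN : Smaller (ULift.{u} ℕ) K) (c : Cond K) (b : K) :
    ∃ z, b < z ∧ c.f z = none := by
  by_contra hcon
  have hcon' : ∀ z, b < z → c.f z ≠ none := fun z hz hn => hcon ⟨z, hz, hn⟩
  have hS : {x | c.f x ≠ none} ∈ U :=
    Filter.mem_of_superset (hU.tail b) (fun z hz => hcon' z hz)
  have hne : {x | c.f x ≠ none}.Nonempty := Ultrafilter.nonempty_of_mem hS
  obtain ⟨g, hg⟩ := c.ctble.exists_eq_range hne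
  have h3 := h2 K U hU hN (fun n => {z | z ≠ g n}) (fun n =>
    Filter.mem_of_superset (hU.tail (g n)) (fun z hz => ne_of_gt hz))
  have h4 := Filter.inter_mem hS h3
  obtain ⟨z, hz1, hz2⟩ := Ultrafilter.nonempty_of_mem h4
  rw [hg] at hz1
  obtain ⟨n, hn⟩ := hz1
  have h5 := Set.mem_iInter.mp hz2 n
  exact h5 hn.symm

theorem main (h2 : S_SIGMA.{u}) : S_SPLIT.{u, v} := by
  intro K _ _ U hU hN L hL w
  obtain ⟨a, i, hi, hia⟩ := hL
  choose z hz using fun x : K => free h2 U hU hN (w.q x) (max x a)
  have hzx : ∀ x, x < z x := fun x => lt_of_le_of_lt (le_max_left _ _) (hz x).1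
  have hza : ∀ x, a < z x := fun x => lt_of_le_of_lt (le_max_right _ _) (hz x).1
  refine ⟨fun l => ⟨w.A, w.hA, fun x => addv (w.q x) (z x) (i l) ((hia l).trans (hza x)), ?_⟩,
    fun l => ⟨Subset.rfl, ?_⟩, ?_⟩
  · intro x y hyx
    exact (addv_ne (w.q x) (z x) (i l) ((hia l).trans (hza x))
      (ne_of_lt (hyx.trans (hzx x)))).trans (w.hq x y hyx)
  · intro x _ y v hv
    have hne : y ≠ z x := by
      rintro rfl
      rw [(hz x).2] at hv
      cases hv
    exact (addv_ne (w.q x) (z x) (i l) ((hia l).trans (hza x)) hne).trans hv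
  · intro l l' x p hp hp'
    have h1 := hp.2 (z x) (i l) (addv_self (w.q x) (z x) (i l) ((hia l).trans (hza x)))
    have h2 := hp'.2 (z x) (i l') (addv_self (w.q x) (z x) (i l') ((hia l').trans (hza x)))
    rw [h1] at h2
    exact hi (Option.some.inj h2)

end Pool.Agent.W827.MBSplit
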